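import Pool.Agent.Helper62.LCY.B2
import Pool.Agent.Helper11.LCY.Stmts

/-!
Row S_A10 of MP_f7e214_ag: local factorisation. Normalised valuations of curves.
-/

open Polynomial Pool.Agent.Helper82.LCY

namespace LCY

noncomputable section

namespace H50

open H62

variable {L : Type} [Field L] [Algebra ℂ L]

theorem fm_single {α M : Type} [AddCommMonoid M] {s : Set α} {f : α → M} {a : α} (ha : a ∈ s)
    (h : ∀ x ∈ s, x ≠ a → f x = 0) : ∑ᶠ x ∈ s, f x = f a := by
  classical
  rw [finsum_eq_single _ a, finsum_eq_if, if_pos ha]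
  intro x hx
  rw [finsum_eq_if]
  split_ifs with h1
  · exact h x h1 hx
  · rfl

theorem fm_sub {α M : Type} [AddCommGroup M] {s : Set α} {f g : α → M}
    (hf : (s ∩ Function.support f).Finite) (hg : (s ∩ Function.support g).Finite) :
    ∑ᶠ x ∈ s, (f x - g x) = ∑ᶠ x ∈ s, f x - ∑ᶠ x ∈ s, g x := by
  rw [eq_sub_iff_add_eq, ← finsum_mem_add_distrib' _ hg]
  · exact finsum_mem_congr rfl fun x _ => sub_add_cancel _ _
  · refine (hf.union hg).subset fun x hx => ?_
    by_cases h : f x = 0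
    · right
      refine ⟨hx.1, fun h1 => hx.2 ?_⟩
      show f x - g x = 0
      rw [h, h1, sub_zero]
    · exact Or.inl ⟨hx.1, h⟩

theorem dval_ext {v w : DVal L} (h : v.v = w.v) : v = w := by
  cases v
  cases w
  cases h
  rfl

theorem dval_eq {v w : DVal L} (h : v.Same w) (h0 : v.v 0 = w.v 0) : v = w := by
  apply dval_ext
  funext a
  by_cases ha : a = 0
  · rw [ha, h0]
  · exact h a ha

theorem pval_zero (P : Coord L) {g : ℂ[X][X]} (hg : Prime g) : (P.pval g hg).v 0 = 0 := by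
  show pv P g 0 = 0
  unfold pv
  rw [dif_neg (not_not.2 rfl)]

theorem ord_zero (P : Coord L) : P.ord.v 0 = 0 := pval_zero _ _

theorem inf_zero (P : Coord L) : P.inf.v 0 = 0 := pval_zero _ _

theorem adic_ev {P : Coord L} {g : ℂ[X][X]} {v : DVal L} (h : IsAdic P g v) {f : ℂ[X][X]}
    (hf : f ≠ 0) : v.v (ev P.x P.y f) = (multiplicity g f : ℤ) := by
  have hp := h.1.prime
  obtain ⟨c, h1, h2⟩ := (fin_mult hp hf).exists_eq_pow_mul_and_not_dvd
  have h3 := h.2 (multiplicity g f) c h2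
  rwa [← h1] at h3

theorem adic_same {P : Coord L} {g : ℂ[X][X]} {v : DVal L} (h : IsAdic P g v) :
    v.Same (P.pval g h.1.prime) := by
  intro a ha
  obtain ⟨⟨f, k⟩, hf, hk, h1⟩ := rep P ha
  rw [h1, v.map_div (P.ne hf) (P.ne hk), DVal.map_div _ (P.ne hf) (P.ne hk), adic_ev h hf,
    adic_ev h hk, P.pval_ev _ hf, P.pval_ev _ hk]

theorem adic_eq {P : Coord L} {g : ℂ[X][X]} {v : DVal L} (h : IsAdic P g v) (h0 : v.v 0 = 0) :
    v = P.pval g h.1.prime := dval_eq (adic_same h) (by rw [h0, pval_zero])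

theorem adic_of_assoc {P : Coord L} {g g' : ℂ[X][X]} {v : DVal L} (h : IsAdic P g v)
    (hg : Associated g g') : IsAdic P g' v := by
  obtain ⟨u, rfl⟩ := hg
  have hi : Irreducible (g * u) := (irreducible_mul_units u).2 h.1
  refine ⟨hi, fun n f hf => ?_⟩
  have hf' : f ≠ 0 := by
    rintro rfl
    exact hf (dvd_zero _)
  rw [adic_ev h (mul_ne_zero (pow_ne_zero _ hi.ne_zero) hf'), mult_mul h.1.prime
    (pow_ne_zero _ hi.ne_zero) hf', mult_zero (p := g) (f := f)]
  · have h1 : multiplicity g ((g * u) ^ n) = multiplicity g (g ^ n) := by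
      refine multiplicity_eq_of_associated_right ?_
      exact (Associated.pow_pow ⟨u, rfl⟩).symm
    rw [h1, multiplicity_pow_self h.1.ne_zero h.1.not_isUnit]
    simp
  · intro h1
    apply hf
    rwa [Units.mul_right_dvd]

/-- The value at a prime polynomial of the valuation of a prime polynomial. -/
theorem adic_prime {P : Coord L} {g p : ℂ[X][X]} {v : DVal L} (h : IsAdic P g v) (hp : Prime p) :
    (v.v (ev P.x P.y p) = 1 ∧ Associated g p) ∨ (v.v (ev P.x P.y p) = 0 ∧ ¬ Associated g p) := by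
  rw [adic_ev h hp.ne_zero]
  by_cases hd : g ∣ p
  · left
    have h1 : Associated g p := h.1.associated_of_dvd hp.irreducible hd
    refine ⟨?_, h1⟩
    rw [← multiplicity_eq_of_associated_right h1, multiplicity_self]
    rfl
  · right
    refine ⟨?_, fun h1 => hd h1.dvd⟩
    rw [mult_zero hd]
    rfl

theorem ordn_const {f : ℂ[X][X]} (h : cf f (0, 0) ≠ 0) : ordn f = 0 :=
  ordn_eq ⟨og_zero f, (0, 0), h, rfl⟩

theorem unit_ev {f : ℂ[X][X]} (hf : IsUnit f) : ∃ c : ℂ, c ≠ 0 ∧ f = C (C c) := by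
  obtain ⟨p, hp, rfl⟩ := Polynomial.isUnit_iff.1 hf
  obtain ⟨c, hc, rfl⟩ := Polynomial.isUnit_iff.1 hp
  exact ⟨c, hc.ne_zero, rfl⟩

/-- The finsum over the curves through a point at a prime polynomial. -/
theorem prime_case (h6 : ST_A6) (h7 : ST_A7) (P : Coord L) {p : ℂ[X][X]} (hp : Prime p) :
    {v | v ∈ Thr P.loc ∧ v.v (ev P.x P.y p) ≠ 0}.Finite ∧
    (ordn p : ℤ) = ∑ᶠ v ∈ Thr P.loc, v.v (ev P.x P.y p) * mul P.loc v := by
  have key : ∀ v ∈ Thr P.loc, v.v (ev P.x P.y p) ≠ 0 → v = P.pval p hp := by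
    intro v hv h0
    obtain ⟨g, hg, -⟩ := (h6 L P v).1 hv.2
    rcases adic_prime hg hp with h1 | h1
    · exact adic_eq (adic_of_assoc hg h1.2) hv.1
    · exact absurd h1.1 h0
  refine ⟨(Set.finite_singleton (P.pval p hp)).subset fun v hv => key v hv.1 hv.2, ?_⟩
  by_cases h0 : cf p (0, 0) = 0
  · have h1 : P.pval p hp ∈ Thr P.loc :=
      ⟨pval_zero P hp, (h6 L P _).2 ⟨p, isAdic_pval P hp, h0⟩⟩
    have h2 := (h7 L P _ p (isAdic_pval P hp) h0).1
    rw [fm_single h1 (by
      intro v hv hne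
      by_cases h3 : v.v (ev P.x P.y p) = 0
      · rw [h3, zero_mul]
      · exact absurd (key v hv h3) hne), P.pval_ev hp hp.ne_zero, multiplicity_self, h2]
    simp
  · rw [ordn_const h0]
    symm
    rw [finsum_mem_eq_zero_of_forall_eq_zero]
    · rfl
    · intro v hv
      by_cases h3 : v.v (ev P.x P.y p) = 0
      · rw [h3, zero_mul]
      · exfalso
        obtain ⟨g, hg, hg0⟩ := (h6 L P v).1 hv.2
        rcases adic_prime hg hp with h1 | h1
        · obtain ⟨u, hu⟩ := h1.2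
          apply h0
          rw [← hu, cf_mul_zero, hg0, zero_mul]
        · exact h3 h1.1

theorem pol_case (h6 : ST_A6) (h7 : ST_A7) (P : Coord L) {f : ℂ[X][X]} (hf : f ≠ 0) :
    {v | v ∈ Thr P.loc ∧ v.v (ev P.x P.y f) ≠ 0}.Finite ∧
    (ordn f : ℤ) = ∑ᶠ v ∈ Thr P.loc, v.v (ev P.x P.y f) * mul P.loc v := by
  induction f using UniqueFactorizationMonoid.induction_on_prime with
  | h₁ => exact absurd rfl hf
  | h₂ u hu =>
    obtain ⟨c, hc, rfl⟩ := unit_ev hu
    have h1 : ∀ v : DVal L, v.v (ev P.x P.y (C (C c))) = 0 := by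
      intro v
      rw [ev_CC, v.map_const c hc]
    constructor
    · refine Set.Finite.subset Set.finite_empty fun v hv => ?_
      exact hv.2 (h1 v)
    · rw [ordn_const (by simpa [cf] using hc)]
      symm
      rw [finsum_mem_eq_zero_of_forall_eq_zero]
      · rfl
      · intro v _
        rw [h1, zero_mul]
  | h₃ a p ha hp ih =>
    obtain ⟨f1, e1⟩ := ih ha
    obtain ⟨f2, e2⟩ := prime_case h6 h7 P hp
    have hv : ∀ v : DVal L, v.v (ev P.x P.y (p * a)) =
        v.v (ev P.x P.y p) + v.v (ev P.x P.y a) := by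
      intro v
      rw [_root_.map_mul, v.map_mul _ _ (P.ne hp.ne_zero) (P.ne ha)]
    constructor
    · refine (f2.union f1).subset fun v h => ?_
      by_cases h3 : v.v (ev P.x P.y p) = 0
      · right
        refine ⟨h.1, fun h4 => h.2 ?_⟩
        rw [hv, h3, h4, add_zero]
      · exact Or.inl ⟨h.1, h3⟩
    · rw [ordn_mul hp.ne_zero ha]
      push_cast
      rw [e1, e2, ← finsum_mem_add_distrib']
      · refine finsum_mem_congr rfl fun v _ => ?_
        rw [hv]
        ring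
      · refine f2.subset fun v h => ⟨h.1, fun h3 => h.2 ?_⟩
        show _ * _ = _
        rw [h3, zero_mul]
      · refine f1.subset fun v h => ⟨h.1, fun h3 => h.2 ?_⟩
        show _ * _ = _
        rw [h3, zero_mul]

end H50

open H50 H62

/-- **Row A10.** -/
theorem H50.st_A10 (h6 : ST_A6) (h7 : ST_A7) : ST_A10 := by
  intro L _ _ P z hz
  obtain ⟨⟨f, g⟩, hf, hg, rfl⟩ := rep P hz
  dsimp only at hf hg hz ⊢
  obtain ⟨f1, e1⟩ := pol_case h6 h7 P hf
  obtain ⟨f2, e2⟩ := pol_case h6 h7 P hg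
  have hv : ∀ v : DVal L, v.v (ev P.x P.y f / ev P.x P.y g) =
      v.v (ev P.x P.y f) - v.v (ev P.x P.y g) := fun v => v.map_div (P.ne hf) (P.ne hg)
  constructor
  · refine (f1.union f2).subset fun v h => ?_
    by_cases h3 : v.v (ev P.x P.y f) = 0
    · right
      refine ⟨h.1, fun h4 => h.2 ?_⟩
      rw [hv, h3, h4, sub_zero]
    · exact Or.inl ⟨h.1, h3⟩
  · intro w hw
    have h1 := isOrd_iff.1 hw
    rw [h1 _ hz, P.ord.map_div (P.ne hf) (P.ne hg), P.ord_ev (oe_ordn hf), P.ord_ev (oe_ordn hg),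
      e1, e2, ← fm_sub]
    · refine finsum_mem_congr rfl fun v _ => ?_
      rw [hv]
      ring
    · refine f1.subset fun v h => ⟨h.1, fun h3 => h.2 ?_⟩
      show _ * _ = _
      rw [h3, zero_mul]
    · refine f2.subset fun v h => ⟨h.1, fun h3 => h.2 ?_⟩
      show _ * _ = _
      rw [h3, zero_mul]

end

end LCY
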