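import Pool.Agent.Helper81.LCY.ClD
import Pool.Agent.Helper50.LCY.A10

/-!
Row S_B2K of MP_f7e214_ag: the class of a 2-form.
-/

open Polynomial Pool.Agent.Helper82.LCY

namespace LCY

noncomputable section

namespace H50

open H62

variable {L : Type} [Field L] [Algebra ℂ L]

/-- Translation as a homomorphism. -/
def trH (a b : ℂ) : ℂ[X][X] →+* ℂ[X][X] :=
  (compRingHom (X + C (C b))).comp (mapRingHom (compRingHom (X + C a)))

theorem trH_apply (a b : ℂ) (f : ℂ[X][X]) : trH a b f = trl a b f := rfl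

theorem trH_C (a b : ℂ) (p : ℂ[X]) : trH a b (C p) = C (p.comp (X + C a)) := by
  rw [trH_apply]
  unfold trl
  rw [map_C, C_comp]
  rfl

theorem trH_X (a b : ℂ) : trH a b X = X + C (C b) := by
  rw [trH_apply]
  unfold trl
  rw [map_X, X_comp]

theorem trH_trH (a b : ℂ) (f : ℂ[X][X]) : trH (-a) (-b) (trH a b f) = f := by
  have h : (trH (-a) (-b)).comp (trH a b) = RingHom.id _ := by
    refine Polynomial.ringHom_ext ?_ ?_
    · intro p
      rw [RingHom.comp_apply, trH_C, trH_C, comp_assoc, add_comp, X_comp, C_comp, C_neg,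
        neg_add_cancel_right, comp_X]
      rfl
    · rw [RingHom.comp_apply, trH_X, map_add, trH_X, trH_C, C_comp, C_neg, C_neg,
        neg_add_cancel_right]
      rfl
  exact RingHom.congr_fun h f

/-- Translation as an isomorphism. -/
def trE (a b : ℂ) : ℂ[X][X] ≃+* ℂ[X][X] :=
  RingEquiv.ofRingHom (trH a b) (trH (-a) (-b))
    (RingHom.ext fun f => by
      have h := trH_trH (-a) (-b) f
      rw [neg_neg, neg_neg] at h
      exact h)
    (RingHom.ext fun f => trH_trH a b f)

theorem trl_prime {a b : ℂ} {g : ℂ[X][X]} (hg : Prime g) : Prime (trl a b g) := by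
  have h := (MulEquiv.prime_iff (trE a b).toMulEquiv).2 hg
  exact h

theorem cf0_trl (a b : ℂ) (f : ℂ[X][X]) :
    cf (trl a b f) (0, 0) = (f.map (evalRingHom a)).eval b := by
  have h : ((constantCoeff : ℂ[X] →+* ℂ).comp (constantCoeff : ℂ[X][X] →+* ℂ[X])).comp
      (trH a b) = (evalRingHom b).comp (mapRingHom (evalRingHom a)) := by
    refine Polynomial.ringHom_ext ?_ ?_
    · intro p
      rw [RingHom.comp_apply, trH_C]
      simp [coeff_zero_eq_eval_zero]
    · rw [RingHom.comp_apply, trH_X]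
      simp
  exact RingHom.congr_fun h f

/-- A prime polynomial has a zero. -/
theorem exists_zero {g : ℂ[X][X]} (hg : Prime g) : ∃ a b : ℂ, cf (trl a b g) (0, 0) = 0 := by
  by_cases hd : g.natDegree = 0
  · have h1 := eq_C_of_natDegree_eq_zero hd
    have h2 : ¬ IsUnit (g.coeff 0) := by
      intro h
      apply hg.not_isUnit
      rw [h1]
      exact h.map C
    have h3 : g.coeff 0 ≠ 0 := by
      intro h
      apply hg.ne_zero
      rw [h1, h, C_0]
    obtain ⟨a, ha⟩ := IsAlgClosed.exists_root (g.coeff 0) (by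
      intro h
      exact h2 (isUnit_iff_degree_eq_zero.2 h))
    refine ⟨a, 0, ?_⟩
    rw [cf0_trl, h1, map_C, eval_C, coe_evalRingHom]
    exact ha
  · have hl : g.leadingCoeff ≠ 0 := by
      rw [Ne, leadingCoeff_eq_zero]
      exact hg.ne_zero
    obtain ⟨a, ha⟩ : ∃ a : ℂ, g.leadingCoeff.eval a ≠ 0 := by
      by_contra hcon
      push Not at hcon
      exact hl (Polynomial.funext fun a => by rw [hcon a, eval_zero])
    have h1 : (g.map (evalRingHom a)).natDegree = g.natDegree :=
      natDegree_map_of_leadingCoeff_ne_zero _ ha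
    obtain ⟨b, hb⟩ := IsAlgClosed.exists_root (g.map (evalRingHom a)) (by
      intro h
      apply hd
      rw [← h1]
      exact natDegree_eq_of_degree_eq_some h)
    refine ⟨a, b, ?_⟩
    rw [cf0_trl]
    exact hb

/-- A curve of the affine plane passes through the origin of translated coordinates. -/
theorem exists_trans_through {S : Coord L} {g : ℂ[X][X]} {v : DVal L} (hg : IsAdic S g v) :
    ∃ (Q : Coord L) (a b : ℂ), Q.x = S.x - algebraMap ℂ L a ∧ Q.y = S.y - algebraMap ℂ L b ∧
      Through Q.loc v := by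
  obtain ⟨a, b, h0⟩ := exists_zero hg.1.prime
  obtain ⟨Q, hx, hy⟩ := S.trans a b
  refine ⟨Q, a, b, hx, hy, (H81.through_iff Q v).2 ⟨trl a b g, ?_, h0⟩⟩
  have h1 : ∀ f, ev Q.x Q.y (trl a b f) = ev S.x S.y f := by
    intro f
    rw [hx, hy, ev_trl]
  refine ⟨(trl_prime hg.1.prime).irreducible, fun n f hf => ?_⟩
  have h2 : trl a b (trH (-a) (-b) f) = f := by
    have h := trH_trH (-a) (-b) f
    rw [neg_neg, neg_neg] at h
    exact h
  have h3 : trl a b g ^ n * f = trl a b (g ^ n * trH (-a) (-b) f) := by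
    conv_lhs => rw [← h2]
    rw [← trH_apply, ← trH_apply, ← trH_apply, map_mul, map_pow]
  rw [h3, h1]
  refine hg.2 n _ fun hd => hf ?_
  have h4 := map_dvd (trH a b) hd
  rw [trH_apply, trH_apply, h2] at h4
  exact h4

open Classical in
/-- Minus three times the line at infinity. -/
def sgl0 (a : DVal L) : DVal L → ℤ := fun v => if v = a then -3 else 0

/-- **Row B2K.** -/
theorem st_B2K (h16 : ST_A16) (h17 : ST_A17) : ST_B2K := by
  intro L _ _ k T ω w _ hT hO
  have hx := T.S.x_ne
  have hb : ω.br T.S.x T.S.y ≠ 0 := br_ne ω T.S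
  obtain ⟨p1, p2⟩ := H81.plane_sum T.S _ hb
  have haff : ∀ v, (∃ g, IsAdic T.S g v) → w v = - v.v (ω.br T.S.x T.S.y) := by
    rintro v ⟨g, hg⟩
    obtain ⟨Q, a, b, e1, e2, h1⟩ := exists_trans_through hg
    have h2 := (hT Q v (h1.1 _ (by
      have := Q.ev_mem_loc (C X)
      rwa [ev_CX] at this)) (h1.1 _ (by
      have := Q.ev_mem_loc X
      rwa [ev_X] at this)) h1).2
    rw [e1, e2, ω.sub_left, ω.const_left, sub_zero, ω.sub_right, ω.const_right, sub_zero] at h2
    omega
  have hinfx : T.S.inf.v T.S.x = -1 := by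
    have h1 := isInf_inf T.S (C X) CX_ne
    rwa [ev_CX, H81.tdeg_CX] at h1
  have hinf : w T.S.inf = - T.S.inf.v (ω.br T.S.x T.S.y) - 3 := by
    have h1 : Through T.S.cinf.loc T.S.inf :=
      (H81.through_iff _ _).2 ⟨C X, isAdic_pval _ prime_CX, by simp [cf]⟩
    have h2 := (hT T.S.cinf _ (h1.1 _ (by
      have := T.S.cinf.ev_mem_loc (C X)
      rwa [ev_CX] at this)) (h1.1 _ (by
      have := T.S.cinf.ev_mem_loc X
      rwa [ev_X] at this)) h1).2
    have hxi := inv_ne_zero hx
    rw [T.S.cinf_x, T.S.cinf_y, ω.inv_left hx, ω.br_div hx, DVal.map_neg, DVal.map_mul,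
      DVal.map_mul, DVal.map_mul, DVal.map_inv _ hx, hinfx] at h2
    · omega
    · exact hxi
    · exact hb
    · exact hxi
    · exact hxi
    · exact mul_ne_zero hxi hxi
    · exact mul_ne_zero hxi hb
    · exact mul_ne_zero (mul_ne_zero hxi hxi) (mul_ne_zero hxi hb)
  have hPC : ∀ v ∈ H81.PC T.S, w v = sgl0 T.S.inf v - v.v (ω.br T.S.x T.S.y) := by
    intro v hv
    unfold sgl0
    by_cases h : v = T.S.inf
    · rw [h, hinf]
      rw [if_pos rfl]
      ring
    · rw [if_neg h, zero_sub]
      rcases hv.2 with h1 | h1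
      · exact absurd (dval_eq (H81.inf_same h1 (isInf_inf _)) (by rw [hv.1, inf_zero])) h
      · exact haff v h1
  have hD : T.IsDiv w := by
    refine H81.finite_of_PC h16 h17 T ((p1.union (Set.finite_singleton T.S.inf)).subset ?_)
    rintro v ⟨hv, hne⟩
    by_cases h : v = T.S.inf
    · exact Or.inr h
    · left
      refine ⟨hv, fun h0 => hne ?_⟩
      rw [hPC v hv, h0]
      unfold sgl0
      rw [if_neg h, sub_zero]
  refine ⟨hD, Prod.ext ?_ ?_⟩
  · rw [H81.clD_fst h17 T hD]
    have h1 : ∑ᶠ v ∈ H81.PC T.S, w v * deg T.S v = ∑ᶠ v ∈ H81.PC T.S,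
        (sgl0 T.S.inf v * deg T.S v - v.v (ω.br T.S.x T.S.y) * deg T.S v) := by
      refine finsum_mem_congr rfl fun v hv => ?_
      rw [hPC v hv]
      ring
    rw [h1, fm_sub, p2, fm_single (H81.inf_mem T.S), H81.deg_inf (isInf_inf _)]
    · unfold sgl0
      rw [if_pos rfl]
      rfl
    · intro v _ hne
      unfold sgl0
      rw [if_neg hne, zero_mul]
    · refine (Set.finite_singleton T.S.inf).subset fun v hv => ?_
      by_contra hne
      have hne' : ¬ v = T.S.inf := fun h => hne h
      apply hv.2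
      show sgl0 T.S.inf v * deg T.S v = 0
      unfold sgl0
      rw [if_neg hne', zero_mul]
    · refine p1.subset fun v hv => ⟨hv.1, fun h0 => hv.2 ?_⟩
      show v.v (ω.br T.S.x T.S.y) * deg T.S v = 0
      rw [h0, zero_mul]
  · funext i
    obtain ⟨P, hP⟩ := H81.exists_coord h16 T i
    have hE : IsOrd (T.R i) P.ord := by
      rw [← hP]
      exact isOrd_ord P
    rw [H81.clD_snd h16 h17 T hD i hE (ord_zero P)]
    have hbP : ω.br P.x P.y ≠ 0 := br_ne ω P
    obtain ⟨-, h2⟩ := H81.st_A10 L P _ hbP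
    have h3 := h2 P.ord (isOrd_ord P)
    have h4 := hO P P.ord (isOrd_ord P)
    have h5 : ∑ᶠ v ∈ Thr (T.R i), w v * mul (T.R i) v =
        - ∑ᶠ v ∈ Thr P.loc, v.v (ω.br P.x P.y) * mul P.loc v := by
      have h8 : ∑ᶠ v ∈ Thr (T.R i), w v * mul (T.R i) v =
          ∑ᶠ v ∈ Thr P.loc, (0 - v.v (ω.br P.x P.y) * mul P.loc v) := by
        rw [hP]
        refine finsum_mem_congr rfl fun v hv => ?_
        have h6 : Through P.loc v := by
          rw [hP]
          exact hv.2
        have h7 := (hT P v (h6.1 _ (by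
          have := P.ev_mem_loc (C X)
          rwa [ev_CX] at this)) (h6.1 _ (by
          have := P.ev_mem_loc X
          rwa [ev_X] at this)) h6).2
        rw [h7]
        ring
      rw [h8, fm_sub, finsum_mem_zero, zero_sub]
      · refine Set.Finite.subset Set.finite_empty fun v hv => ?_
        exact hv.2 rfl
      · refine (H81.st_A10 L P _ hbP).1.subset fun v hv => ⟨hv.1, fun h0 => hv.2 ?_⟩
        show v.v (ω.br P.x P.y) * mul P.loc v = 0
        rw [h0, zero_mul]
    rw [h5, ← h3, h4]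
    show _ = (-1 : ℤ)
    ring

end H50

end

end LCY
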