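import Pool.Agent.Helper50.LCY.A10

/-!
Divisors on surfaces (MP_f7e214_ag): elementary facts, rows S_B3 and S_B4.
-/

open Polynomial Pool.Agent.Helper82.LCY

namespace LCY

noncomputable section

namespace H50

open H62

variable {L : Type} [Field L] [Algebra ℂ L] {k : ℕ}

theorem isDiv_supp {T : PStr L k} {D : DVal L → ℤ} (hD : T.IsDiv D) :
    (T.C ∩ Function.support fun v => D v • T.cl v).Finite := by
  refine hD.subset fun v hv => ⟨hv.1, fun h => hv.2 ?_⟩
  show D v • T.cl v = 0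
  rw [h, zero_smul]

theorem clD_fst {T : PStr L k} {D : DVal L → ℤ} (hD : T.IsDiv D) :
    (T.clD D).1 = ∑ᶠ v ∈ T.C, D v * (T.cl v).1 := by
  unfold PStr.clD
  have h := AddMonoidHom.map_finsum_mem' (AddMonoidHom.fst ℤ (Fin k → ℤ)) (isDiv_supp hD)
  exact h

theorem clD_snd {T : PStr L k} {D : DVal L → ℤ} (hD : T.IsDiv D) (i : Fin k) :
    (T.clD D).2 i = ∑ᶠ v ∈ T.C, D v * (T.cl v).2 i := by
  unfold PStr.clD
  have h := AddMonoidHom.map_finsum_mem' ((Pi.evalAddMonoidHom (fun _ : Fin k => ℤ) i).comp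
    (AddMonoidHom.snd ℤ (Fin k → ℤ))) (isDiv_supp hD)
  exact h

theorem isDiv_add {T : PStr L k} {D D' : DVal L → ℤ} (hD : T.IsDiv D) (hD' : T.IsDiv D') :
    T.IsDiv (fun v => D v + D' v) := by
  refine (hD.union hD').subset fun v hv => ?_
  by_cases h : D v = 0
  · right
    refine ⟨hv.1, fun h' => hv.2 ?_⟩
    show D v + D' v = 0
    rw [h, h', add_zero]
  · exact Or.inl ⟨hv.1, h⟩

theorem isDiv_sub {T : PStr L k} {D D' : DVal L → ℤ} (hD : T.IsDiv D) (hD' : T.IsDiv D') :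
    T.IsDiv (fun v => D v - D' v) := by
  refine (hD.union hD').subset fun v hv => ?_
  by_cases h : D v = 0
  · right
    refine ⟨hv.1, fun h' => hv.2 ?_⟩
    show D v - D' v = 0
    rw [h, h', sub_zero]
  · exact Or.inl ⟨hv.1, h⟩

theorem clD_add {T : PStr L k} {D D' : DVal L → ℤ} (hD : T.IsDiv D) (hD' : T.IsDiv D') :
    T.clD (fun v => D v + D' v) = T.clD D + T.clD D' := by
  unfold PStr.clD
  rw [← finsum_mem_add_distrib' (isDiv_supp hD) (isDiv_supp hD')]
  exact finsum_mem_congr rfl fun v _ => add_smul _ _ _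

theorem clD_sub {T : PStr L k} {D D' : DVal L → ℤ} (hD : T.IsDiv D) (hD' : T.IsDiv D') :
    T.clD (fun v => D v - D' v) = T.clD D - T.clD D' := by
  unfold PStr.clD
  rw [← fm_sub (isDiv_supp hD) (isDiv_supp hD')]
  exact finsum_mem_congr rfl fun v _ => sub_smul _ _ _

open Classical in
/-- The divisor `n a`. -/
def sgl (a : DVal L) (n : ℤ) : DVal L → ℤ := fun v => if v = a then n else 0

theorem isDiv_sgl (T : PStr L k) (a : DVal L) (n : ℤ) : T.IsDiv (sgl a n) := by
  refine (Set.finite_singleton a).subset fun v hv => ?_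
  by_contra h
  exact hv.2 (if_neg h)

theorem clD_sgl (T : PStr L k) {a : DVal L} (ha : a ∈ T.C) (n : ℤ) :
    T.clD (sgl a n) = n • T.cl a := by
  unfold PStr.clD
  rw [fm_single ha]
  · unfold sgl
    rw [if_pos rfl]
  · intro x _ hx
    unfold sgl
    rw [if_neg hx, zero_smul]

theorem exists_exc (h16 : ST_A16) (T : PStr L k) : ∃ E : Fin k → DVal L,
    (∀ i, IsOrd (T.R i) (E i)) ∧ ∀ i, (E i).v 0 = 0 := by
  choose P hP using fun i : Fin k => h16 L k T i _ (T.valid i)
  refine ⟨fun i => (P i).ord, fun i => ?_, fun i => ord_zero _⟩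
  rw [← hP i]
  exact isOrd_ord _

theorem isOrd_same {R : Subalgebra ℂ L} {v w : DVal L} (hv : IsOrd R v) (hw : IsOrd R w) :
    v.Same w := by
  obtain ⟨P, rfl, -⟩ := id hv
  intro a ha
  rw [isOrd_iff.1 hv a ha, isOrd_iff.1 hw a ha]

theorem isInf_same {S : Coord L} {v w : DVal L} (hv : IsInf S v) (hw : IsInf S w) :
    v.Same w := by
  intro a ha
  obtain ⟨⟨f, g⟩, hf, hg, h1⟩ := rep S ha
  rw [h1, v.map_div (S.ne hf) (S.ne hg), w.map_div (S.ne hf) (S.ne hg), hv f hf, hv g hg,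
    hw f hf, hw g hg]

theorem same_symm {v w : DVal L} (h : v.Same w) : w.Same v := fun a ha => (h a ha).symm

/-! ### The curves of the surface -/

/-- The facts about the curves of the surface that are used here. -/
structure Cf (T : PStr L k) (E : Fin k → DVal L) : Prop where
  ord : ∀ i, IsOrd (T.R i) (E i)
  zero : ∀ i, (E i).v 0 = 0
  mem : ∀ i, E i ∈ T.C
  uni : ∀ i v, v ∈ T.C → IsOrd (T.R i) v → v = E i
  inf : T.S.inf ∈ T.C
  cases : ∀ v ∈ T.C, v = T.S.inf ∨ (∃ g, IsAdic T.S g v) ∨ ∃ i, v = E i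
  dinf : (T.cl T.S.inf).1 = 1
  dexc : ∀ i, (T.cl (E i)).1 = 0
  diag : ∀ i, (T.cl (E i)).2 i = -1
  low : ∀ i j, j < i → (T.cl (E i)).2 j = 0

theorem exists_Cf (h16 : ST_A16) (h17 : ST_A17) (h18 : ST_A18) (T : PStr L k) :
    ∃ E, Cf T E := by
  obtain ⟨E, h1, h2⟩ := exists_exc h16 T
  refine ⟨E, ⟨h1, h2, fun i => ⟨h2 i, (h17 L k T _).2 (Or.inr ⟨i, h1 i⟩)⟩, ?_,
    ⟨inf_zero _, (h17 L k T _).2 (Or.inl (Or.inl (isInf_inf _)))⟩, ?_, ?_, ?_, ?_, ?_⟩⟩
  · intro i v hv hi
    exact dval_eq (isOrd_same hi (h1 i)) (by rw [hv.1, h2])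
  · intro v hv
    rcases (h17 L k T v).1 hv.2 with (h | h) | ⟨i, hi⟩
    · left
      exact dval_eq (isInf_same h (isInf_inf _)) (by rw [hv.1, inf_zero])
    · exact Or.inr (Or.inl h)
    · exact Or.inr (Or.inr ⟨i, dval_eq (isOrd_same hi (h1 i)) (by rw [hv.1, h2])⟩)
  · show deg T.S T.S.inf = 1
    unfold deg
    rw [if_pos (isInf_inf _)]
  · intro i
    exact (h18 L k T i _ (h1 i)).2.1
  · intro i
    show mul (T.R i) (E i) = -1
    unfold mul
    rw [if_pos (h1 i)]
  · intro i j hj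
    obtain ⟨-, -, h3, h4, -⟩ := h18 L k T i _ (h1 i)
    show mul (T.R j) (E i) = 0
    unfold mul
    rw [if_neg, if_neg (h4 j hj)]
    intro h5
    exact hj.ne (h3 j h5)

/-- **Row B4.** -/
theorem st_B4 (h16 : ST_A16) (h17 : ST_A17) (h18 : ST_A18) : ST_B4 := by
  intro L _ _ k T c
  obtain ⟨E, hE⟩ := exists_Cf h16 h17 h18 T
  have key : ∀ m ≤ k, ∃ D, T.IsDiv D ∧ (T.clD D).1 = c.1 ∧
      ∀ i : Fin k, (i : ℕ) < m → (T.clD D).2 i = c.2 i := by
    intro m
    induction m with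
    | zero =>
      intro _
      refine ⟨sgl T.S.inf c.1, isDiv_sgl _ _ _, ?_, fun i hi => absurd hi (Nat.not_lt_zero _)⟩
      rw [clD_sgl T hE.inf, Prod.smul_fst, hE.dinf, smul_eq_mul, mul_one]
    | succ m ih =>
      intro hm
      obtain ⟨D, h1, h2, h3⟩ := ih (Nat.le_of_succ_le hm)
      set i0 : Fin k := ⟨m, hm⟩ with hi0
      refine ⟨fun v => D v + sgl (E i0) ((T.clD D).2 i0 - c.2 i0) v,
        isDiv_add h1 (isDiv_sgl _ _ _), ?_, ?_⟩
      · rw [clD_add h1 (isDiv_sgl _ _ _), clD_sgl T (hE.mem i0), Prod.fst_add, Prod.smul_fst,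
          hE.dexc, smul_zero, add_zero, h2]
      · intro i hi
        rw [clD_add h1 (isDiv_sgl _ _ _), clD_sgl T (hE.mem i0), Prod.snd_add, Prod.smul_snd,
          Pi.add_apply, Pi.smul_apply]
        by_cases h4 : (i : ℕ) = m
        · have h5 : i = i0 := Fin.ext h4
          rw [h5, hE.diag, smul_eq_mul]
          ring
        · have h5 : i < i0 := by
            rw [Fin.lt_def]
            show (i : ℕ) < m
            omega
          rw [hE.low i0 i h5, smul_zero, add_zero, h3 i (by omega)]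
  obtain ⟨D, h1, h2, h3⟩ := key k le_rfl
  exact ⟨D, h1, Prod.ext h2 (funext fun i => h3 i i.2)⟩

/-! ### Divisors of class zero -/

theorem val_zpow_prod {v : DVal L} {ι : Type} (s : Finset ι) (F : ι → L) (n : ι → ℤ)
    (hF : ∀ i ∈ s, F i ≠ 0) :
    ∏ i ∈ s, F i ^ n i ≠ 0 ∧ v.v (∏ i ∈ s, F i ^ n i) = ∑ i ∈ s, n i * v.v (F i) := by
  classical
  induction s using Finset.induction_on with
  | empty => simp [v.map_one]
  | insert a s ha ih =>
    obtain ⟨h1, h2⟩ := ih fun i hi => hF i (Finset.mem_insert_of_mem hi)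
    have h3 := hF a (Finset.mem_insert_self a s)
    rw [Finset.prod_insert ha, Finset.sum_insert ha]
    refine ⟨mul_ne_zero (zpow_ne_zero _ h3) h1, ?_⟩
    rw [v.map_mul _ _ (zpow_ne_zero _ h3) h1, v.map_zpow h3, h2]

/-- A function with prescribed values on the affine curves. -/
theorem exists_affine (S : Coord L) (D : DVal L → ℤ) (X : Set (DVal L))
    (hX : ∀ v ∈ X, v.v 0 = 0) (hfin : {v | v ∈ X ∧ D v ≠ 0}.Finite) :
    ∃ f : L, f ≠ 0 ∧ ∀ v ∈ X, (∃ g, IsAdic S g v) → v.v f = D v := by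
  classical
  have hg : ∀ v : DVal L, ∃ g : ℂ[X][X], g ≠ 0 ∧ ((∃ g, IsAdic S g v) → IsAdic S g v) := by
    intro v
    by_cases h : ∃ g, IsAdic S g v
    · obtain ⟨g, hg⟩ := h
      exact ⟨g, hg.1.ne_zero, fun _ => hg⟩
    · exact ⟨1, one_ne_zero, fun h' => absurd h' h⟩
  choose g hg0 hg using hg
  set s : Finset (DVal L) := hfin.toFinset.filter fun v => ∃ g, IsAdic S g v with hs
  refine ⟨∏ v ∈ s, ev S.x S.y (g v) ^ D v,
    (val_zpow_prod (v := S.inf) s _ _ fun v _ => S.ne (hg0 v)).1, ?_⟩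
  intro w hw hwa
  rw [(val_zpow_prod (v := w) s _ _ fun v _ => S.ne (hg0 v)).2]
  have hwg := hg w hwa
  have key : ∀ v ∈ s, v ≠ w → D v * w.v (ev S.x S.y (g v)) = 0 := by
    intro v hv hne
    rw [hs, Finset.mem_filter, Set.Finite.mem_toFinset] at hv
    have hvg := hg v hv.2
    rcases adic_prime hwg hvg.1.prime with h1 | h1
    · exfalso
      apply hne
      have h2 := adic_eq (adic_of_assoc hwg h1.2) (hX w hw)
      have h3 := adic_eq hvg (hX v hv.1.1)
      exact h3.trans h2.symm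
    · rw [h1.1, mul_zero]
  by_cases hD : D w = 0
  · rw [hD, Finset.sum_eq_zero]
    intro v hv
    by_cases hne : v = w
    · rw [hne, hD, zero_mul]
    · exact key v hv hne
  · have hws : w ∈ s := by
      rw [hs, Finset.mem_filter, Set.Finite.mem_toFinset]
      exact ⟨⟨hw, hD⟩, hwa⟩
    rw [Finset.sum_eq_single w key fun h => absurd hws h]
    rcases adic_prime hwg hwg.1.prime with h1 | h1
    · rw [h1.1, mul_one]
    · exact absurd (Associated.refl _) h1.2

/-- **Row B3.** -/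
theorem st_B3 (h16 : ST_A16) (h17 : ST_A17) (h18 : ST_A18) (hB1 : ST_B1) : ST_B3 := by
  intro L _ _ k T D hD hD0
  obtain ⟨E, hE⟩ := exists_Cf h16 h17 h18 T
  obtain ⟨f, hf, hval⟩ := exists_affine T.S D T.C (fun v hv => hv.1) hD
  obtain ⟨b1, b2⟩ := hB1 L k T f hf
  set D' : DVal L → ℤ := fun v => D v - v.v f with hD'
  have c1 : T.IsDiv D' := isDiv_sub hD b1
  have c2 : T.clD D' = 0 := by
    rw [hD', clD_sub hD b1, hD0, b2, sub_zero]
  have haff : ∀ v ∈ T.C, (∃ g, IsAdic T.S g v) → D' v = 0 := by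
    intro v hv h
    rw [hD']
    show D v - v.v f = 0
    rw [hval v hv h, sub_self]
  have hinf : D' T.S.inf = 0 := by
    have h1 := clD_fst c1
    rw [c2, fm_single hE.inf] at h1
    · rw [hE.dinf, mul_one] at h1
      exact h1.symm
    · intro v hv hne
      rcases hE.cases v hv with h | h | ⟨i, h⟩
      · exact absurd h hne
      · rw [haff v hv h, zero_mul]
      · rw [h, hE.dexc, mul_zero]
  have hexc : ∀ (m : ℕ) (i : Fin k), (i : ℕ) < m → D' (E i) = 0 := by
    intro m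
    induction m with
    | zero => exact fun i hi => absurd hi (Nat.not_lt_zero _)
    | succ m ih =>
      intro i hi
      by_cases h4 : (i : ℕ) < m
      · exact ih i h4
      have h1 := clD_snd c1 i
      rw [c2, fm_single (hE.mem i)] at h1
      · rw [hE.diag] at h1
        have h2 : (0 : Cl ℤ (Fin k)).2 i = 0 := rfl
        rw [h2] at h1
        linarith
      · intro v hv hne
        rcases hE.cases v hv with h | h | ⟨j, h⟩
        · rw [h, hinf, zero_mul]
        · rw [haff v hv h, zero_mul]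
        · rcases lt_trichotomy j i with h5 | h5 | h5
          · rw [h, ih j (by
              rw [Fin.lt_def] at h5
              omega), zero_mul]
          · exact absurd (h5 ▸ h) hne
          · rw [h, hE.low j i h5, mul_zero]
  refine ⟨f, hf, fun v hv => ?_⟩
  have h1 : D' v = 0 := by
    rcases hE.cases v hv with h | h | ⟨i, h⟩
    · rw [h, hinf]
    · exact haff v hv h
    · rw [h]
      exact hexc k i i.2
  have h2 : D v - v.v f = 0 := h1
  omega

end H50

end

end LCY
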