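import Pool.Agent.Helper27.LCY.PG
import Pool.Agent.Helper98.LCY.LocF
import Pool.Agent.Helper81.LCY.ClD

/-!
Row S_TY of MP_f7e214_ag: the shape of the classes of curves.
-/

open Polynomial Pool.Agent.Helper82.LCY

namespace LCY

noncomputable section

namespace H50

variable {L : Type} [Field L] [Algebra ℂ L]

theorem mul_nonneg_of {R : Subalgebra ℂ L} {v : DVal L} (h : ¬ IsOrd R v) : 0 ≤ mul R v := by
  unfold mul
  rw [if_neg h]
  split_ifs
  · exact Int.natCast_nonneg _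
  · exact le_rfl

theorem ordn_le_tdeg {g : ℂ[X][X]} (hg : g ≠ 0) : ordn g ≤ tdeg g := by
  obtain ⟨e, he⟩ := exists_cf_ne hg
  have h1 : ordn g ≤ e.1 + e.2 := Nat.sInf_le ⟨e, he, rfl⟩
  exact h1.trans (H62.le_tdeg he)

theorem mul_le_plane {S : Coord L} {R : Subalgebra ℂ L} (hR : R ∈ plane S) {v : DVal L}
    (h : Through R v) : mul R v ≤ deg S v := by
  obtain ⟨A, Q, hdet, hQ, hx, hy⟩ := hR
  subst hQ
  obtain ⟨g, hg, h0⟩ := (H81.through_iff Q v).1 h
  have hPR : H27.PR S Q A := ⟨hx, hy⟩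
  rw [(H81.st_A7 L Q v g hg h0).1, ← H27.deg_eq hPR hdet v, (H81.st_A8 L Q v g hg).1]
  exact_mod_cast ordn_le_tdeg hg.1.ne_zero

theorem mul_next {P : Coord L} {o : Option ℂ} {v : DVal L} (h : Through (P.st o).loc v)
    (h1 : Through P.loc v) : mul (P.st o).loc v ≤ mul P.loc v := by
  obtain ⟨g, hg, h0⟩ := (H81.through_iff P v).1 h1
  obtain ⟨g', hg', h0'⟩ := (H81.through_iff (P.st o) v).1 h
  have ho : ¬ g ∣ H98.eP o := by
    intro hd
    have h2 := (H98.adic_pos_iff hg (H98.eP_ne o)).2 hd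
    rw [H98.ev_eP, ← ev_CX (P.st o).x (P.st o).y, H98.adic_pos_iff hg' H62.CX_ne] at h2
    have h3 := H98.adic_ord (H98.adic_assoc hg'
      (hg'.1.associated_of_dvd H62.prime_CX.irreducible h2))
    exact H81.not_through_of_isOrd (H98.isOrd_congr (H98.isOrd_ord P) (H98.same_symm h3)) h1
  have h2 := H98.strict_adic hg ho
  have h3 : cf (H62.bq o (ordn g) g) (0, 0) = 0 :=
    H81.cf0_associated (H81.IsAdic.associated hg' h2) h0'
  rw [(H81.st_A7 L P v g hg h0).1, (H81.st_A7 L (P.st o) v _ h2 h3).1]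
  obtain ⟨h4, h5⟩ := H62.r0_bq_ne (H98.oe_ordn hg.1.ne_zero) o
  obtain ⟨j, hj, hne⟩ : ∃ j, j ≤ ordn g ∧ cf (H62.bq o (ordn g) g) (0, j) ≠ 0 := by
    refine ⟨_, h5, ?_⟩
    rw [← H62.r0_coeff]
    exact fun h6 => h4 (leadingCoeff_eq_zero.1 h6)
  have h6 : ordn (H62.bq o (ordn g) g) ≤ 0 + j := Nat.sInf_le ⟨(0, j), hne, rfl⟩
  omega

theorem mul_le_deg {k : ℕ} (T : PStr L k) {v : DVal L} (hno : ∀ i, ¬ IsOrd (T.R i) v) (j : ℕ) :
    ∀ R ∈ surf T.S T.R j, Through R v → mul R v ≤ deg T.S v := by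
  induction j with
  | zero => exact fun R hR h => mul_le_plane hR h
  | succ j ih =>
    by_cases hj : j < k
    · intro R hR h
      rw [surf, dif_pos hj] at hR
      rcases hR with hR | hR
      · exact ih R hR.1 h
      · obtain ⟨P, hP⟩ := H81.exists_coord H98.st_A16 T ⟨j, hj⟩
        have hR' : Next P.loc R := by
          rw [hP]
          exact hR
        obtain ⟨o, rfl⟩ := H98.next_iff.1 hR'
        rcases H98.through_next H81.st_A6 h with h1 | h1
        · refine (mul_next h h1).trans (ih _ ?_ h1)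
          rw [hP]
          exact T.valid ⟨j, hj⟩
        · exfalso
          apply hno ⟨j, hj⟩
          rw [← hP]
          exact H98.isOrd_congr (H98.isOrd_ord P) (H98.same_symm h1)
    · rw [surf, dif_neg hj]
      exact ih

/-- **Row TY.** -/
theorem st_TY (h17 : ST_A17) (h18 : ST_A18) : ST_TY := by
  intro L _ _ k T v hv
  by_cases hno : ∃ i, IsOrd (T.R i) v
  · right
    obtain ⟨p, hp⟩ := hno
    obtain ⟨-, h2, h3, h4, h5⟩ := h18 L k T p v hp
    refine ⟨h2, p, hp, H81.mul_ord hp, fun i hi => ?_, fun i hi => h5 i hi⟩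
    show mul (T.R i) v = 0
    unfold mul
    rw [if_neg, if_neg (h4 i hi)]
    intro h6
    exact hi.ne (h3 i h6)
  · push Not at hno
    left
    have hP : PlaneCur T.S v := by
      rcases (h17 L k T v).1 hv with h | ⟨i, hi⟩
      · exact h
      · exact absurd hi (hno i)
    have h1 : 1 ≤ deg T.S v := by
      rcases hP with h | ⟨g, hg⟩
      · rw [H81.deg_inf h]
      · obtain ⟨h2, h3, -⟩ := H81.st_A8 L T.S v g hg
        rw [h2]
        exact_mod_cast h3
    refine ⟨h1, fun i => ⟨mul_nonneg_of (hno i), ?_⟩⟩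
    show mul (T.R i) v ≤ deg T.S v
    by_cases ht : Through (T.R i) v
    · exact mul_le_deg T hno i _ (T.valid i) ht
    · unfold mul
      rw [if_neg (hno i), if_neg ht]
      omega

end H50

end

end LCY
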